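import Mathlib
import Pool.Agent.MP_fed7c7_lc.H21.Link

set_option autoImplicit false

/-!
A prime in a prescribed residue class which divides a term of a Pell sequence whose index lies in a
prescribed class modulo a period.
-/

namespace Pool.Agent.MP_fed7c7_lc.H33

open Pool.Agent.MP_fed7c7_lc.H56 Pool.Agent.MP_fed7c7_lc.H21

theorem jac {n t : ℤ} {p : ℕ} (n0 : 0 < n) (n2 : n % 2 = 1) (p4 : p % 4 = 1)
    (h : n ∣ p - t) : jacobiSym n p = jacobiSym t n.natAbs := by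
  obtain ⟨n, rfl⟩ := Int.eq_ofNat_of_zero_le n0.le
  rw [← jacobiSym.quadratic_reciprocity_one_mod_four p4 (Nat.odd_iff.2 (by omega)),
    Int.natAbs_natCast]
  exact jacobiSym.mod_left'
    (Int.emod_eq_emod_iff_emod_sub_eq_zero.2 (Int.emod_eq_zero_of_dvd h))

theorem jac_four {n : ℤ} (n2 : n % 2 = 1) : jacobiSym 4 n.natAbs = 1 := by
  rw [show (4 : ℤ) = 2 ^ 2 by norm_num]
  refine jacobiSym.sq_one' ?_
  rw [Int.natCast_natAbs, Int.gcd_eq_one_iff]
  intro c c1 c2
  have := (dvd_abs _ _).1 c2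
  exact dv (this.sub (c1.mul_right (n / 2))) (by omega)

theorem exists_period {G M : ℤ} (G2 : 2 ≤ G) (M0 : M ≠ 0) : ∃ N : ℤ, N ≠ 0 ∧ 2 ∣ N ∧
    ∀ k X, N ∣ k - X → M ∣ ch G k - ch G X ∧ M ∣ ps G k - ps G X := by
  obtain ⟨x, f, hx, hf⟩ := exists_pell (d := G ^ 2 - 1) (N := M) (by nlinarith) (by
    rintro ⟨c, hc⟩
    have h1 : |c| < G := abs_lt_of_sq_lt_sq (by nlinarith) (by linarith)
    nlinarith [sq_abs c, abs_nonneg c]) M0
  obtain ⟨n, hn⟩ := exists_index G2 hf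
  refine ⟨2 * n, fun e => ?_, dvd_mul_right _ _, ?_⟩
  · rw [show n = 0 by omega, ps_zero] at hn
    exact mul_ne_zero M0 hx hn
  · rintro k X ⟨t, ht⟩
    have d1 : M ∣ ps G (n * t) := (Dvd.intro _ hn).trans (ps_dvd_mul G n t)
    have d2 : M ∣ ps G (n * t + n * t) := by
      rw [ps_add]; exact (d1.mul_right _).add (d1.mul_left _)
    have d3 : M ∣ ch G (n * t + n * t) - 1 :=
      dv (d1.mul_left (2 * (G ^ 2 - 1) * ps G (n * t)))
        (by rw [ch_add]; linear_combination pell G (n * t))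
    rw [show k = X + (n * t + n * t) by linear_combination ht, ch_add G X, ps_add G X]
    exact ⟨dv ((d3.mul_left (ch G X)).add (d2.mul_left ((G ^ 2 - 1) * ps G X))) (by ring),
      dv ((d3.mul_left (ps G X)).add (d2.mul_left (ch G X))) (by ring)⟩

theorem prime_dvd_ch {G : ℤ} {p r : ℕ} (hp : p.Prime) (hr : p = 12 * r + 1) (r2 : r % 2 = 1)
    (h1 : jacobiSym (G + 1) p = 1) (h2 : jacobiSym (G - 1) p = 1) :
    (p : ℤ) ∣ ch G (3 * r) := by
  have := Fact.mk hp
  obtain ⟨α, hα⟩ := ZMod.isSquare_of_jacobiSym_eq_one h1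
  obtain ⟨β, hβ⟩ := ZMod.isSquare_of_jacobiSym_eq_one h2
  push_cast at hα hβ
  have two : (2 : ZMod p) ≠ 0 := by
    intro e
    have : (p : ℕ) ∣ 2 := (ZMod.natCast_eq_zero_iff 2 p).1 (by exact_mod_cast e)
    have := Nat.le_of_dvd two_pos this
    omega
  have e2 : (2 : ZMod p) ^ (6 * r) = -1 := by
    have g := legendreSym.eq_pow p 2
    rw [legendreSym.at_two (by omega), show p / 2 = 6 * r by omega,
      ZMod.χ₈_nat_eq_if_mod_eight, if_neg (by omega), if_neg (by omega)] at g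
    push_cast at g
    exact g.symm
  have s2 : (α * β) ^ 2 = ((G ^ 2 - 1 : ℤ) : ZMod p) := by
    push_cast
    linear_combination (-(β * β)) * hα - (G + 1 : ZMod p) * hβ
  have s3 : (α + β) ^ 2 = 2 * (G + α * β) := by linear_combination -hα - hβ
  have n0 : α + β ≠ 0 := fun e => two (by
    linear_combination hα - hβ + (α - β) * e)
  have e3 : ((G : ZMod p) + α * β) ^ (6 * r) = -1 := by
    have g := ZMod.pow_card_sub_one_eq_one n0
    rw [show p - 1 = 2 * (6 * r) by omega, pow_mul, s3, mul_pow, e2] at g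
    linear_combination -g
  have e4 := pow_formula G (α * β) s2 1 (3 * r)
  rw [ps_one, show ch G 1 = G by simp [ch], one_mul] at e4
  have e5 := congrArg (Int.cast : ℤ → ZMod p) (pell G (3 * r))
  push_cast at e4 e5 s2
  rw [one_mul] at e4
  rw [show 6 * r = 3 * r * 2 by ring, pow_mul, e4] at e3
  rw [← ZMod.intCast_zmod_eq_zero_iff_dvd]
  generalize ((ch G (3 * r) : ℤ) : ZMod p) = x at *
  generalize ((ps G (3 * r) : ℤ) : ZMod p) = y at *
  refine (mul_eq_zero.1 (show 2 * x = 0 from ?_)).resolve_left two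
  linear_combination (x - y * (α * β)) * e3 - (x + y * (α * β)) * e5 +
    (x + y * (α * β)) * y ^ 2 * s2

theorem prime_link {G c m F D M lam X : ℤ} (hG : G + 1 = c * m) (c0 : 0 < c) (m0 : 0 < m)
    (m4 : m % 4 = 1) (G2 : 2 ≤ G) (G0 : G % 2 = 0) (hF : F = c * (G - 1) * D) (D2 : D % 2 = 1)
    (h9 : 9 ∣ G - 1) (l1 : F ∣ lam - 4) (l2 : m ∣ lam + 1) (l3 : 8 ∣ lam - 5) (X6 : X % 6 = 3)
    (M0 : M ≠ 0) : ∃ s k, lam + 8 * F * m * s ∣ ch G k ∧ M ∣ ch G k - ch G X ∧
      M ∣ ps G k - ps G X := by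
  obtain ⟨N, N0, N2, hN⟩ := exists_period G2 M0
  have c2 : c % 2 = 1 := by
    have : Odd (c * m) := hG ▸ Int.odd_iff.2 (by omega)
    exact Int.odd_iff.1 (Int.odd_mul.1 this).1
  have F2 : F % 2 = 1 := by
    rw [← Int.odd_iff, hF, Int.odd_mul, Int.odd_mul, Int.odd_iff, Int.odd_iff, Int.odd_iff]
    omega
  have cF : c ∣ F := ⟨(G - 1) * D, by rw [hF]; ring⟩
  have GF : G - 1 ∣ F := ⟨c * D, by rw [hF]; ring⟩
  set W := 8 * F * m with hW
  have W0 : W ≠ 0 := mul_ne_zero (by omega) m0.ne'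
  set Q : ℕ := ∏ q ∈ N.natAbs.primeFactors.filter (fun q : ℕ => ¬(q : ℤ) ∣ W), q with hQ
  have QW : IsCoprime W Q := by
    rw [hQ, Nat.cast_prod]
    refine IsCoprime.prod_right fun q hq => ?_
    rw [Finset.mem_filter] at hq
    have pq := Nat.prime_iff_prime_int.1 (Nat.prime_of_mem_primeFactors hq.1)
    exact (pq.irreducible.coprime_iff_not_dvd.2 hq.2).symm
  have Q0 : Q ≠ 0 := Finset.prod_ne_zero_iff.2 fun q hq =>
    (Nat.prime_of_mem_primeFactors (Finset.mem_filter.1 hq).1).ne_zero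
  obtain ⟨t, ht⟩ : ∃ t, (Q : ℤ) ∣ lam + W * t - 2 := by
    obtain ⟨a, b, e⟩ := QW
    exact ⟨a * (2 - lam), b * (lam - 2), by linear_combination (2 - lam) * e⟩
  have d8 : (8 : ℤ) ∣ W := ⟨F * m, by rw [hW]; ring⟩
  have dF : F ∣ W := ⟨8 * m, by rw [hW]; ring⟩
  have dm : m ∣ W := ⟨8 * F, by rw [hW]; ring⟩
  have co : IsCoprime (lam + W * t) (W * Q) := by
    refine IsCoprime.mul_right (IsCoprime.add_mul_left_left ?_ _) ?_
    · refine (IsCoprime.mul_right ?_ ?_).mul_right ?_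
      · obtain ⟨e, he⟩ := l3
        exact ⟨5, -5 * e - 3, by linear_combination 5 * he⟩
      · obtain ⟨e, he⟩ := l1
        have : IsCoprime 4 F := by
          rw [show (4 : ℤ) = 2 ^ 2 by norm_num]
          exact IsCoprime.pow_left ⟨-(F / 2), 1, by omega⟩
        rw [show lam = 4 + F * e by linear_combination he]
        exact this.add_mul_left_left _
      · obtain ⟨e, he⟩ := l2
        exact ⟨-1, e, by linear_combination -he⟩
    · obtain ⟨e, he⟩ := ht
      rw [show lam + W * t = 2 + Q * e by linear_combination he]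
      exact (QW.of_isCoprime_of_dvd_left ((by norm_num : (2 : ℤ) ∣ 8).trans d8)).add_mul_left_left _
  obtain ⟨p, -, hp, e⟩ := Nat.forall_exists_prime_gt_and_zmodEq 0 (q := (W * Q).natAbs)
    (a := lam + W * t) (Int.natAbs_ne_zero.2 (mul_ne_zero W0 (by exact_mod_cast Q0)))
    (by rwa [Int.natCast_natAbs, IsCoprime.abs_right_iff])
  have e1 : W * Q ∣ p - (lam + W * t) := by
    have := e.symm.dvd
    rwa [Int.natCast_natAbs, abs_dvd] at this
  have e2 : W ∣ p - lam :=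
    dv (((dvd_mul_right W Q).trans e1).add (dvd_mul_right W t)) (by ring)
  have e3 : (Q : ℤ) ∣ p - 2 := dv (((dvd_mul_left _ W).trans e1).add ht) (by ring)
  have p8 : (8 : ℤ) ∣ p - 5 := dv ((d8.trans e2).add l3) (by ring)
  have pF : F ∣ p - 4 := dv ((dF.trans e2).add l1) (by ring)
  have pm : m ∣ p - -1 := dv ((dm.trans e2).add l2) (by ring)
  have p9 : (9 : ℤ) ∣ p - 4 := (h9.trans GF).trans pF
  obtain ⟨r, hr, r6⟩ : ∃ r : ℕ, p = 12 * r + 1 ∧ r % 6 = 1 := ⟨p / 12, by omega, by omega⟩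
  have p4 : p % 4 = 1 := by omega
  have j1 : jacobiSym (G + 1) p = 1 := by
    rw [hG, jacobiSym.mul_left, jac c0 c2 p4 (cF.trans pF), jac_four c2,
      jac m0 (by omega) p4 pm, jacobiSym.at_neg_one (Nat.odd_iff.2 (by omega)),
      ZMod.χ₄_nat_one_mod_four (by omega), one_mul]
  have j2 : jacobiSym (G - 1) p = 1 := by
    rw [jac (by omega) (by omega) p4 (GF.trans pF), jac_four (by omega)]
  have d := prime_dvd_ch hp hr (by omega) j1 j2
  have rN : IsCoprime (r : ℤ) N := by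
    rw [Int.isCoprime_iff_gcd_eq_one, Int.gcd, Int.natAbs_natCast]
    refine Nat.eq_one_iff_not_exists_prime_dvd.2 fun q hq g => ?_
    have q1 := (Nat.dvd_gcd_iff.1 g).1
    have q2 := (Nat.dvd_gcd_iff.1 g).2
    have q3 : (q : ℤ) ∣ p - 1 := by
      rw [hr]; push_cast
      exact dv ((Int.natCast_dvd_natCast.2 q1).mul_left 12) (by ring)
    have q6 : ¬(q : ℤ) ∣ 6 ^ 3 := fun g => by
      have g1 := (Nat.prime_iff_prime_int.1 hq).dvd_of_dvd_pow g
      have g2 : (q : ℤ) ∣ 1 := dv ((Int.natCast_dvd_natCast.2 q1).sub (g1.mul_right (r / 6)))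
        (by omega)
      exact hq.one_lt.ne' (by exact_mod_cast Int.eq_one_of_dvd_one (by omega) g2)
    by_cases g : (q : ℤ) ∣ W
    · have pq := Nat.prime_iff_prime_int.1 hq
      rcases pq.dvd_or_dvd g with g | g
      · rcases pq.dvd_or_dvd g with g | g
        · exact q6 (g.trans (by norm_num))
        · exact q6 (dv ((q3.sub (g.trans pF)).mul_right 72) (by ring))
      · exact q6 (dv (((g.trans pm).sub q3).mul_right 108) (by ring))
    · have : (q : ℤ) ∣ Q := Int.natCast_dvd_natCast.2 (Finset.dvd_prod_of_mem _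
        (Finset.mem_filter.2 ⟨Nat.mem_primeFactors.2 ⟨hq, q2, Int.natAbs_ne_zero.2 N0⟩, g⟩))
      exact q6 (dv ((q3.sub (this.trans e3)).mul_right 216) (by ring))
  obtain ⟨a, b, ab⟩ := rN
  obtain ⟨Y, hY⟩ : ∃ Y, X = 3 * Y := ⟨X / 3, by omega⟩
  have dk : N ∣ 3 * r * (a * Y) - X := ⟨-3 * b * Y, by rw [hY]; linear_combination 3 * Y * ab⟩
  obtain ⟨o, ho⟩ : Odd (a * Y) := by
    have : Odd (3 * r * (a * Y)) := Int.odd_iff.2 (by have := N2.trans dk; omega)
    exact (Int.odd_mul.1 this).2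
  obtain ⟨s, hs⟩ := e2
  refine ⟨s, 3 * r * (a * Y), ?_, hN _ _ dk⟩
  rw [show lam + W * s = p by linear_combination -hs, ho,
    show 3 * (r : ℤ) * (2 * o + 1) = 3 * r + 2 * (3 * r) * o by ring]
  refine d.trans ?_
  rcases ch_half G (3 * r) (3 * r) o with g | g
  · exact dv (g.add (dvd_refl _)) (by ring)
  · exact dv (g.sub (dvd_refl _)) (by ring)

end Pool.Agent.MP_fed7c7_lc.H33
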