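import Pool.Agent.MP_fed7c7_lc.H34.Jac

set_option autoImplicit false

/-!
The prime of the sign certificate can be taken in a finer residue class.
-/

namespace Pool.Agent.MP_fed7c7_lc.H33

open Pool.Agent.MP_fed7c7_lc.H56 Pool.Agent.MP_fed7c7_lc.H21 Pool.Agent.MP_fed7c7_lc.H34

theorem exists_prime6 {F m x E : ℤ} (oF : Odd F) (F9 : 9 ∣ F) (m0 : m ≠ 0) (hF : F ∣ x - 4)
    (hm : m ∣ x + 1) (h8 : x % 8 = 5) (EF : E ∣ F) {n : ℕ} (n0 : n ≠ 0) :
    ∃ p r : ℕ, p.Prime ∧ p = 12 * r + 1 ∧ 8 * F * m * E ∣ p - x ∧ Nat.Coprime r (2 * n) := by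
  classical
  set L := 8 * F * m * E with hL
  set Q : ℤ := ∏ q ∈ n.primeFactors.filter fun q : ℕ => ¬(q : ℤ) ∣ L, (q : ℤ) with hQ
  have c1 : IsCoprime L Q := IsCoprime.prod_right fun q hq => by
    rw [Finset.mem_filter] at hq
    exact ((Nat.prime_iff_prime_int.1 (Nat.prime_of_mem_primeFactors hq.1)).coprime_iff_not_dvd.2
      hq.2).symm
  have Q0 : Q ≠ 0 := Finset.prod_ne_zero_iff.2 fun q hq => by
    rw [Finset.mem_filter] at hq
    exact_mod_cast (Nat.prime_of_mem_primeFactors hq.1).ne_zero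
  have F0 : F ≠ 0 := by rintro rfl; exact absurd oF (by decide)
  have E0 : E ≠ 0 := by rintro rfl; exact F0 (zero_dvd_iff.1 EF)
  have L0 : L ≠ 0 := mul_ne_zero (mul_ne_zero (mul_ne_zero (by norm_num) F0) m0) E0
  have c2 : IsCoprime x L := by
    obtain ⟨f, hf⟩ := oF
    obtain ⟨e, he⟩ := hF
    obtain ⟨d, hd⟩ := hm
    have c4 : IsCoprime (2 ^ 2 : ℤ) F := IsCoprime.pow_left ⟨-f, 1, by linarith⟩
    have c6 : IsCoprime x F := by
      rw [show x = 2 ^ 2 + F * e by linarith]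
      exact c4.add_mul_left_left _
    exact ((IsCoprime.mul_right ⟨5, -(5 * (x / 8) + 3), by omega⟩ c6).mul_right
      ⟨-1, d, by linarith⟩).mul_right (c6.of_isCoprime_of_dvd_right EF)
  have c3 : IsCoprime 2 Q := c1.of_isCoprime_of_dvd_left ⟨4 * F * m * E, by rw [hL]; ring⟩
  obtain ⟨α, β, h1⟩ := c1
  have c5 : IsCoprime (x + L * ((2 - x) * α)) (L * Q) := by
    refine (c2.add_mul_left_left _).mul_right ?_
    rw [show x + L * ((2 - x) * α) = 2 + Q * ((x - 2) * β) by linear_combination (2 - x) * h1]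
    exact c3.add_mul_left_left _
  obtain ⟨p, -, hp, e⟩ := Nat.forall_exists_prime_gt_and_zmodEq 0 (q := (L * Q).natAbs)
    (a := x + L * ((2 - x) * α)) (Int.natAbs_ne_zero.2 (mul_ne_zero L0 Q0))
    (c5.of_isCoprime_of_dvd_right (Int.natAbs_dvd.2 dvd_rfl))
  have e1 := Int.natAbs_dvd.1 e.symm.dvd
  have d1 : L ∣ p - x := dv (((dvd_mul_right L Q).trans e1).add (dvd_mul_right L ((2 - x) * α)))
    (by ring)
  have d2 : Q ∣ p - 2 := dv (((dvd_mul_left Q L).trans e1).add (dvd_mul_right Q ((x - 2) * β)))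
    (by linear_combination (2 - x) * h1)
  have d8 : 8 ∣ p - x := Dvd.dvd.trans ⟨F * m * E, by rw [hL]; ring⟩ d1
  have dF : F ∣ p - 4 := dv ((Dvd.dvd.trans ⟨8 * m * E, by rw [hL]; ring⟩ d1).add hF) (by ring)
  have dm : m ∣ p + 1 := dv ((Dvd.dvd.trans ⟨8 * F * E, by rw [hL]; ring⟩ d1).add hm) (by ring)
  have d9 := F9.trans dF
  obtain ⟨r, hr⟩ : ∃ r, p = 12 * r + 1 := ⟨p / 12, by omega⟩
  refine ⟨p, r, hp, hr, d1, Nat.coprime_of_dvd fun q hq q1 q2 => ?_⟩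
  have q3 : (q : ℤ) ∣ p - 1 := dv ((Int.natCast_dvd_natCast.2 q1).mul_left 12) (by omega)
  have q4 : q ≠ 2 := by rintro rfl; omega
  have q5 : q ≠ 3 := by rintro rfl; omega
  have pq := Nat.prime_iff_prime_int.1 hq
  have small : ∀ t : ℕ, t.Prime → (q : ℤ) ∣ t → q = t := fun t ht g =>
    (Nat.prime_dvd_prime_iff_eq hq ht).1 (Int.natCast_dvd_natCast.1 g)
  by_cases g : (q : ℤ) ∣ L
  · have g : (q : ℤ) ∣ 8 * F * m := (pq.dvd_or_dvd g).elim id fun g =>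
      (g.trans EF).trans ⟨8 * m, by ring⟩
    rcases pq.dvd_or_dvd g with g | g
    · rcases pq.dvd_or_dvd g with g | g
      · exact q4 (small 2 Nat.prime_two (pq.dvd_of_dvd_pow (n := 3) (dv g (by norm_num))))
      · exact q5 (small 3 Nat.prime_three (dv (q3.sub (g.trans dF)) (by push_cast; ring)))
    · exact q4 (small 2 Nat.prime_two (dv ((g.trans dm).sub q3) (by push_cast; ring)))
  · have q6 : q ∣ n := ((Nat.Prime.dvd_mul hq).1 q2).resolve_left fun z =>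
      q4 ((Nat.prime_dvd_prime_iff_eq hq Nat.prime_two).1 z)
    have q7 : (q : ℤ) ∣ Q := Finset.dvd_prod_of_mem (fun q : ℕ => (q : ℤ))
      (Finset.mem_filter.2 ⟨Nat.mem_primeFactors.2 ⟨hq, q6, n0⟩, g⟩)
    exact pq.not_dvd_one (dv (q3.sub (q7.trans d2)) (by ring))

/-- The certificate exists when `m` is positive. -/
theorem exists_dvd6 {G c m F x X M E : ℤ} (hG : 2 ≤ G) (ev : Even G) (e : G + 1 = c * m)
    (oF : Odd F) (F9 : 9 ∣ F) (cF : c ∣ F) (GF : G - 1 ∣ F) (hF : F ∣ x - 4) (hm : m ∣ x + 1)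
    (h8 : x % 8 = 5) (m0 : 0 < m) (m4 : m % 4 = 1) (oX : Odd X) (X3 : 3 ∣ X) (hM : M ≠ 0)
    (EF : E ∣ F) (s₀ : ℤ) : ∃ s k, E ∣ s - s₀ ∧ x + 8 * F * m * s ∣ ch G k ∧
      M ∣ ch G k - ch G X ∧ M ∣ ps G k - ps G X := by
  obtain ⟨n, n0, hn⟩ := exists_period hG hM
  obtain ⟨p, r, hp, er, ⟨s', hs'⟩, co⟩ := exists_prime6 (x := x + 8 * F * m * s₀) oF F9 m0.ne'
    (dv (hF.add (dvd_mul_right F (8 * m * s₀))) (by ring))
    (dv (hm.add (dvd_mul_right m (8 * F * s₀))) (by ring))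
    (by rw [mul_assoc, mul_assoc]; omega) EF n0
  obtain ⟨s, es, hs⟩ : ∃ s, E ∣ s - s₀ ∧ (p : ℤ) - x = 8 * F * m * s :=
    ⟨s₀ + E * s', ⟨s', by ring⟩, by linear_combination hs'⟩
  obtain ⟨α, β, h1⟩ := Nat.isCoprime_iff_coprime.2 co
  obtain ⟨Y, rfl⟩ := X3
  push_cast at h1
  have ek : ((3 * r : ℕ) : ℤ) * (Y * α) = 3 * Y + 2 * n * (-(3 * Y * β)) := by
    push_cast; linear_combination 3 * Y * h1
  have ok : Odd (Y * α) := by
    refine (Int.odd_mul.1 (ek ▸ oX.add_even ?_)).2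
    exact ⟨n * (-(3 * Y * β)), by ring⟩
  have p8 : (p : ℤ) % 8 = 5 := by
    have : (p : ℤ) = x + 8 * (F * m * s) := by linarith
    omega
  have dF : F ∣ p - 4 := dv (hF.add (dvd_mul_right F (8 * m * s))) (by linarith)
  have dm : m ∣ p + 1 := dv (hm.add (dvd_mul_right m (8 * F * s))) (by linarith)
  have j1 := jplus hG ev e (x := p) (by omega) (cF.trans dF) dm
  have j2 := jminus hG ev (x := p) (by omega) (GF.trans dF)
  rw [Int.natAbs_natCast] at j1 j2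
  rw [ZMod.χ₄_nat_one_mod_four (by omega)] at j1
  refine ⟨s, _, es, ?_, hn _ (-(3 * Y * β))⟩
  rw [← ek, show x + 8 * F * m * s = p by linarith]
  exact prime_dvd_ch hp (by omega) (by omega) j1 j2 ok

/-- The certificate together with the removal of the part prime to three. -/
theorem exists_dvd3 {G c m F x X M P : ℤ} (hG : 2 ≤ G) (ev : Even G) (e : G + 1 = c * m)
    (oF : Odd F) (F9 : 9 ∣ F) (cF : c ∣ F) (GF : G - 1 ∣ F) (hF : F ∣ x - 4) (hm : m ∣ x + 1)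
    (h8 : x % 8 = 5) (m0 : 0 < m) (m4 : m % 4 = 1) (oX : Odd X) (X3 : 3 ∣ X) (hM : M ≠ 0)
    (PF : P ∣ F) {V : ℕ} (hV : ¬(3 : ℤ) ^ (V + 1) ∣ P) {T : ℤ} (hT : 3 ^ (14 * V + 2) ∣ T) :
    ∃ s k, 9 * P ^ 14 ∣ T * (3 * s + 1) ^ 14 ∧ x + 8 * F * m * s ∣ ch G k ∧
      M ∣ ch G k - ch G X ∧ M ∣ ps G k - ps G X := by
  have P0 : P ≠ 0 := by rintro rfl; exact hV (dvd_zero _)
  obtain ⟨n, E, h3, rfl⟩ := WfDvdMonoid.max_power_factor P0 Int.prime_three.irreducible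
  have nV : n ≤ V := by
    by_contra g
    exact hV ((pow_dvd_pow 3 (by omega)).mul_right E)
  obtain ⟨α, β, h1⟩ := (Int.prime_three.coprime_iff_not_dvd).2 h3
  obtain ⟨s, k, ⟨t, es⟩, h⟩ := exists_dvd6 hG ev e oF F9 cF GF hF hm h8 m0 m4 oX X3 hM
    ((dvd_mul_left E _).trans PF) (-α)
  refine ⟨s, k, ?_, h⟩
  have d1 : E ∣ 3 * s + 1 := ⟨3 * t + β, by linear_combination 3 * es - h1⟩
  rw [show 9 * (3 ^ n * E) ^ 14 = 3 ^ (14 * n + 2) * E ^ 14 by ring]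
  exact mul_dvd_mul ((pow_dvd_pow 3 (by omega)).trans hT) (pow_dvd_pow_of_dvd d1 14)

end Pool.Agent.MP_fed7c7_lc.H33
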