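import Mathlib
import Pool.Agent.MP_fed7c7_lc.H33.Prime

set_option autoImplicit false

/-!
A divisor of a Pell term which lies in suitable residue classes fixes the sign of a factor.
-/

namespace Pool.Agent.MP_fed7c7_lc.H33

open Pool.Agent.MP_fed7c7_lc.H56 Pool.Agent.MP_fed7c7_lc.H21

theorem jac_mod {n a b : ℤ} (h : n ∣ a - b) : jacobiSym a n.natAbs = jacobiSym b n.natAbs :=
  jacobiSym.mod_left' (Int.emod_eq_emod_iff_emod_sub_eq_zero.2
    (Int.emod_eq_zero_of_dvd (Int.natAbs_dvd.2 h)))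

theorem jac_sq {n a b : ℤ} (h : n ∣ a * b ^ 2 - 1) : jacobiSym a n.natAbs = 1 := by
  have e := jac_mod h
  rw [jacobiSym.one_left, jacobiSym.mul_left, jacobiSym.pow_left] at e
  rcases jacobiSym.trichotomy b n.natAbs with g | g | g <;> rw [g] at e <;> simp at e
  all_goals exact e

theorem sign_sound {G c m F D lam k : ℤ} (hG : G + 1 = c * m) (m4 : m % 4 = 1) (G2 : 2 ≤ G)
    (G0 : G % 2 = 0) (hF : F = c * (G - 1) * D) (l1 : F ∣ lam - 4) (l2 : m ∣ lam + 1)
    (l3 : 8 ∣ lam - 5) (h : lam ∣ ch G k) : 0 < m := by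
  have c2 : c % 2 = 1 := by
    have : Odd (c * m) := hG ▸ Int.odd_iff.2 (by omega)
    exact Int.odd_iff.1 (Int.odd_mul.1 this).1
  have cF : c ∣ lam - 4 := Dvd.dvd.trans ⟨(G - 1) * D, by rw [hF]; ring⟩ l1
  have GF : G - 1 ∣ lam - 4 := Dvd.dvd.trans ⟨c * D, by rw [hF]; ring⟩ l1
  have odd : Odd lam.natAbs := Nat.odd_iff.2 (by omega)
  rcases Int.even_or_odd' k with ⟨e, rfl | rfl⟩
  · have j := jac_sq (a := 2) (b := ch G e)
      (dv h (by rw [two_mul e, ch_add]; linear_combination pell G e))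
    rw [jacobiSym.at_two odd, ZMod.χ₈_nat_eq_if_mod_eight, if_neg (by omega),
      if_neg (by omega)] at j
    omega
  have e0 : ch G (2 * e + 1) = G * ch G e ^ 2 + 2 * (G ^ 2 - 1) * ch G e * ps G e +
      G * (G ^ 2 - 1) * ps G e ^ 2 := by
    rw [show 2 * e + 1 = e + 1 + e by ring, ch_add, ch_succ, ps_succ]; ring
  have j1 := jac_sq (a := -(G - 1)) (b := ch G e + (G + 1) * ps G e)
    (dv h.neg_right (by rw [e0]; linear_combination pell G e))
  have j2 := jac_sq (a := G + 1) (b := ch G e + (G - 1) * ps G e)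
    (dv h (by rw [e0]; linear_combination pell G e))
  rcases lt_or_ge lam 0 with l0 | l0
  · obtain ⟨g, hg⟩ := Int.eq_ofNat_of_zero_le (show 0 ≤ G - 1 by omega)
    have og : Odd g := Nat.odd_iff.2 (by omega)
    have j3 := jacobiSym.quadratic_reciprocity' og odd
    have j4 : jacobiSym lam.natAbs g = ZMod.χ₄ g := by
      have := jac_mod (a := lam.natAbs) (b := -4) (n := G - 1) (dv GF.neg_right (by omega))
      have j5 := jac_four (n := G - 1) (by omega)
      rw [hg, Int.natAbs_natCast] at this j5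
      rw [this, jacobiSym.neg _ og, j5, mul_one]
    rw [hg, jacobiSym.neg _ odd, j3, j4, ZMod.χ₄_nat_three_mod_four (by omega)] at j1
    rcases Nat.odd_mod_four_iff.1 (Nat.odd_iff.1 og) with g4 | g4
    · rw [qrSign, ZMod.χ₄_nat_three_mod_four (by omega),
        jacobiSym.at_neg_one og, ZMod.χ₄_nat_one_mod_four g4] at j1
      omega
    · rw [qrSign, ZMod.χ₄_nat_three_mod_four (by omega),
        jacobiSym.at_neg_one og, ZMod.χ₄_nat_three_mod_four g4] at j1
      omega
  · obtain ⟨p, rfl⟩ := Int.eq_ofNat_of_zero_le l0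
    have p4 : p % 4 = 1 := by omega
    by_contra m0
    have c0 : 0 < -c := by nlinarith
    rw [Int.natAbs_natCast, show G + 1 = -c * -m by linarith, jacobiSym.mul_left,
      jac (t := 4) c0 (by omega) p4 cF.neg_left, jac_four (by omega),
      jac (n := -m) (t := -1) (by omega) (by omega) p4 (dv l2.neg_left (by ring)),
      jacobiSym.at_neg_one (Nat.odd_iff.2 (by omega)),
      ZMod.χ₄_nat_three_mod_four (by omega)] at j2
    omega

end Pool.Agent.MP_fed7c7_lc.H33
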